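import Pool.Agent.U167.SA.Stm

/-!
Project SA, package SWAP: the swapping inequality for two independent configurations.
-/

set_option autoImplicit false

namespace Pool.Agent.U99.SA

open H974 Finset

variable {E : Type*} [DecidableEq E]

/-- `F` inside `I`, `F'` outside -/
def mx (I F F' : Finset E) : Finset E := (F ∩ I) ∪ (F' \ I)

theorem mx_mono (I : Finset E) {F G F' G' : Finset E} (h : F ⊆ G) (h' : F' ⊆ G') :
    mx I F F' ⊆ mx I G G' := by
  intro e he
  simp only [mx, mem_union, mem_inter, mem_sdiff] at he ⊢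
  rcases he with h1 | h1
  · exact Or.inl ⟨h h1.1, h1.2⟩
  · exact Or.inr ⟨h' h1.1, h1.2⟩

theorem mx_inter (I R F F' : Finset E) : mx I (F ∩ R) (F' ∩ R) = mx I F F' ∩ R := by
  ext e
  simp only [mx, mem_union, mem_inter, mem_sdiff]
  tauto

theorem mx_mx (I F F' : Finset E) : mx I (mx I F F') (mx I F' F) = F := by
  ext e
  simp only [mx, mem_union, mem_inter, mem_sdiff]
  tauto

/-- the exchange outside of `I` -/
def sw (I : Finset E) : E ⊕ E → E ⊕ E
  | Sum.inl e => if e ∈ I then Sum.inl e else Sum.inr e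
  | Sum.inr e => if e ∈ I then Sum.inr e else Sum.inl e

theorem sw_invol (I : Finset E) : Function.Involutive (sw I) := by
  rintro (e | e) <;> by_cases h : e ∈ I <;> simp [sw, h]

/-- the exchange outside of `I` as a permutation -/
def swE (I : Finset E) : Equiv.Perm (E ⊕ E) := (sw_invol I).toPerm

theorem mem_swap (I : Finset E) (H : Finset (E ⊕ E)) (x : E ⊕ E) :
    x ∈ H.map (swE I).toEmbedding ↔ sw I x ∈ H := by
  rw [Finset.mem_map_equiv]
  rfl

theorem toLeft_swap (I : Finset E) (H : Finset (E ⊕ E)) :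
    (H.map (swE I).toEmbedding).toLeft = mx I H.toLeft H.toRight := by
  ext e
  rw [Finset.mem_toLeft, mem_swap]
  by_cases h : e ∈ I <;> simp [sw, h, mx]

theorem toRight_swap (I : Finset E) (H : Finset (E ⊕ E)) :
    (H.map (swE I).toEmbedding).toRight = mx I H.toRight H.toLeft := by
  ext e
  rw [Finset.mem_toRight, mem_swap]
  by_cases h : e ∈ I <;> simp [sw, h, mx]

/-- the product weights -/
def q2 (p : E → ℝ) : E ⊕ E → ℝ := Sum.elim p p

omit [DecidableEq E] in
theorem q2_ok {p : E → ℝ} (hp : Ok p) : Ok (q2 p) := by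
  rintro (e | e)
  · exact hp e
  · exact hp e

theorem ex2 (p : E → ℝ) (S : Finset E) (f : Finset (E ⊕ E) → ℝ) :
    Ex (q2 p) (S.disjSum S) f = Ex p S (fun F => Ex p S (fun F' => f (F.disjSum F'))) := by
  have h1 : S.disjSum S = S.map Function.Embedding.inl ∪ S.map Function.Embedding.inr := by
    ext x
    rcases x with x | x <;> simp
  have hd : Disjoint (S.map (Function.Embedding.inl : E ↪ E ⊕ E))
      (S.map (Function.Embedding.inr : E ↪ E ⊕ E)) := by
    rw [Finset.disjoint_left]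
    intro x hx hy
    rcases x with x | x
    · simp at hy
    · simp at hx
  rw [h1, Ex_union hd, Ex_map]
  have e1 : (fun e => q2 p ((Function.Embedding.inl : E ↪ E ⊕ E) e)) = p := rfl
  rw [e1]
  refine Ex_congr fun F _ => ?_
  rw [Ex_map]
  have e2 : (fun e => q2 p ((Function.Embedding.inr : E ↪ E ⊕ E) e)) = p := rfl
  rw [e2]
  refine Ex_congr fun F' _ => ?_
  congr 1
  ext x
  rcases x with x | x <;> simp

theorem ex_swap (p : E → ℝ) (S I : Finset E) (f : Finset (E ⊕ E) → ℝ) :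
    Ex (q2 p) (S.disjSum S) f =
      Ex (q2 p) (S.disjSum S) (fun H => f (H.map (swE I).toEmbedding)) := by
  have h1 : (S.disjSum S).map (swE I).toEmbedding = S.disjSum S := by
    ext x
    rw [mem_swap]
    rcases x with x | x <;> by_cases h : x ∈ I <;> simp [sw, h]
  have h2 : (fun e => q2 p ((swE I).toEmbedding e)) = q2 p := by
    funext e
    show q2 p (sw I e) = q2 p e
    rcases e with x | x <;> by_cases h : x ∈ I <;> simp [sw, h, q2]
  have h3 := Ex_map (q2 p) (swE I).toEmbedding (S.disjSum S) f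
  rw [h1, h2] at h3
  exact h3

theorem pr_left (p : E → ℝ) (S : Finset E) (A : Finset E → Prop) :
    Pr (q2 p) (S.disjSum S) (fun H => A H.toLeft) = Pr p S A := by
  unfold Pr
  rw [ex2]
  refine Ex_congr fun F _ => ?_
  simp only [Finset.toLeft_disjSum]
  exact Ex_const p S _

theorem pr_right (p : E → ℝ) (S : Finset E) (A : Finset E → Prop) :
    Pr (q2 p) (S.disjSum S) (fun H => A H.toRight) = Pr p S A := by
  unfold Pr
  rw [ex2]
  simp only [Finset.toRight_disjSum]
  exact Ex_const p S _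

theorem pr_both (p : E → ℝ) (S : Finset E) (A B : Finset E → Prop) :
    Pr (q2 p) (S.disjSum S) (fun H => A H.toLeft ∧ B H.toRight) = Pr p S A * Pr p S B := by
  unfold Pr
  rw [ex2]
  simp only [Finset.toLeft_disjSum, Finset.toRight_disjSum, ind_and]
  rw [← Ex_mul_right]
  refine Ex_congr fun F _ => ?_
  rw [Ex_mul_left]

/-- all four configurations have the property `Q` -/
def Gd (I : Finset E) (Q : Finset E → Prop) (H : Finset (E ⊕ E)) : Prop :=
  (Q H.toLeft ∧ Q H.toRight) ∧ (Q (mx I H.toLeft H.toRight) ∧ Q (mx I H.toRight H.toLeft))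

theorem toLeft_mono' {H G : Finset (E ⊕ E)} (h : H ⊆ G) : H.toLeft ⊆ G.toLeft := by
  intro e he
  rw [Finset.mem_toLeft] at he ⊢
  exact h he

theorem toRight_mono' {H G : Finset (E ⊕ E)} (h : H ⊆ G) : H.toRight ⊆ G.toRight := by
  intro e he
  rw [Finset.mem_toRight] at he ⊢
  exact h he

theorem Gd_mono {I : Finset E} {Q : Finset E → Prop} (hQ : ∀ F G, F ⊆ G → Q F → Q G)
    {H G : Finset (E ⊕ E)} (h : H ⊆ G) (hg : Gd I Q H) : Gd I Q G := by
  have hl := toLeft_mono' h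
  have hr := toRight_mono' h
  exact ⟨⟨hQ _ _ hl hg.1.1, hQ _ _ hr hg.1.2⟩, hQ _ _ (mx_mono I hl hr) hg.2.1,
    hQ _ _ (mx_mono I hr hl) hg.2.2⟩

theorem toLeft_inter' (H : Finset (E ⊕ E)) (R : Finset E) :
    (H ∩ R.disjSum R).toLeft = H.toLeft ∩ R := by
  ext e
  simp

theorem toRight_inter' (H : Finset (E ⊕ E)) (R : Finset E) :
    (H ∩ R.disjSum R).toRight = H.toRight ∩ R := by
  ext e
  simp

theorem Gd_local {I R : Finset E} {Q : Finset E → Prop} (hQ : ∀ F, Q F ↔ Q (F ∩ R))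
    (H : Finset (E ⊕ E)) : Gd I Q H ↔ Gd I Q (H ∩ R.disjSum R) := by
  unfold Gd
  rw [toLeft_inter', toRight_inter', mx_inter, mx_inter, ← hQ, ← hQ, ← hQ, ← hQ]

/-- `Gd` only looks at the two configurations in `R` -/
theorem Gd_congr {I R : Finset E} {Q : Finset E → Prop} (hQ : ∀ F, Q F ↔ Q (F ∩ R))
    {H G : Finset (E ⊕ E)} (h : H ∩ R.disjSum R = G ∩ R.disjSum R) : Gd I Q H ↔ Gd I Q G := by
  rw [Gd_local hQ H, Gd_local hQ G, h]

theorem Gd_swap_self {I : Finset E} {Q : Finset E → Prop} (H : Finset (E ⊕ E)) :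
    Gd I Q (H.map (swE I).toEmbedding) ↔ Gd I Q H := by
  unfold Gd
  rw [toLeft_swap, toRight_swap, mx_mx, mx_mx]
  tauto

theorem Gd_swap {I J R : Finset E} {Q : Finset E → Prop} (hQ : ∀ F, Q F ↔ Q (F ∩ R))
    (hR : R ⊆ J) (H : Finset (E ⊕ E)) :
    Gd I Q (H.map (swE J).toEmbedding) ↔ Gd I Q H := by
  refine Gd_congr hQ ?_
  ext x
  rw [mem_inter, mem_inter, mem_swap]
  rcases x with x | x
  · constructor
    · rintro ⟨h1, h2⟩
      have hx : x ∈ R := by simpa using h2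
      have hJ := hR hx
      simp only [sw, hJ, if_true] at h1
      exact ⟨h1, h2⟩
    · rintro ⟨h1, h2⟩
      have hx : x ∈ R := by simpa using h2
      have hJ := hR hx
      refine ⟨?_, h2⟩
      simp only [sw, hJ, if_true]
      exact h1
  · constructor
    · rintro ⟨h1, h2⟩
      have hx : x ∈ R := by simpa using h2
      have hJ := hR hx
      simp only [sw, hJ, if_true] at h1
      exact ⟨h1, h2⟩
    · rintro ⟨h1, h2⟩
      have hx : x ∈ R := by simpa using h2
      have hJ := hR hx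
      refine ⟨?_, h2⟩
      simp only [sw, hJ, if_true]
      exact h1

theorem pr_Gd {p : E → ℝ} (hp : Ok p) {S I : Finset E} {Q : Finset E → Prop}
    (hQ : ∀ F G, F ⊆ G → Q F → Q G) {δ : ℝ} (h0 : 0 ≤ δ) (hδ : δ ≤ Pr p S Q) :
    δ ^ 4 ≤ Pr (q2 p) (S.disjSum S) (Gd I Q) := by
  have hq := q2_ok hp
  have i1 : IncrE (S.disjSum S) (fun H : Finset (E ⊕ E) => Q H.toLeft) :=
    fun F G h _ hF => hQ _ _ (toLeft_mono' h) hF
  have i2 : IncrE (S.disjSum S) (fun H : Finset (E ⊕ E) => Q H.toRight) :=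
    fun F G h _ hF => hQ _ _ (toRight_mono' h) hF
  have i3 : IncrE (S.disjSum S) (fun H : Finset (E ⊕ E) => Q (mx I H.toLeft H.toRight)) :=
    fun F G h _ hF => hQ _ _ (mx_mono I (toLeft_mono' h) (toRight_mono' h)) hF
  have i4 : IncrE (S.disjSum S) (fun H : Finset (E ⊕ E) => Q (mx I H.toRight H.toLeft)) :=
    fun F G h _ hF => hQ _ _ (mx_mono I (toRight_mono' h) (toLeft_mono' h)) hF
  have p1 : δ ≤ Pr (q2 p) (S.disjSum S) (fun H : Finset (E ⊕ E) => Q H.toLeft) := by
    rw [pr_left]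
    exact hδ
  have p2 : δ ≤ Pr (q2 p) (S.disjSum S) (fun H : Finset (E ⊕ E) => Q H.toRight) := by
    rw [pr_right]
    exact hδ
  have p3 : δ ≤ Pr (q2 p) (S.disjSum S)
      (fun H : Finset (E ⊕ E) => Q (mx I H.toLeft H.toRight)) := by
    have h := ex_swap p S I (fun H => ind (Q H.toLeft))
    simp only [toLeft_swap] at h
    unfold Pr at p1 ⊢
    rw [← h]
    exact p1
  have p4 : δ ≤ Pr (q2 p) (S.disjSum S)
      (fun H : Finset (E ⊕ E) => Q (mx I H.toRight H.toLeft)) := by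
    have h := ex_swap p S I (fun H => ind (Q H.toRight))
    simp only [toRight_swap] at h
    unfold Pr at p2 ⊢
    rw [← h]
    exact p2
  have i12 : IncrE (S.disjSum S) (fun H : Finset (E ⊕ E) => Q H.toLeft ∧ Q H.toRight) :=
    fun F G h h' hF => ⟨i1 F G h h' hF.1, i2 F G h h' hF.2⟩
  have i34 : IncrE (S.disjSum S) (fun H : Finset (E ⊕ E) => Q (mx I H.toLeft H.toRight) ∧
      Q (mx I H.toRight H.toLeft)) :=
    fun F G h h' hF => ⟨i3 F G h h' hF.1, i4 F G h h' hF.2⟩
  have a12 := (mul_le_mul p1 p2 h0 (h0.trans p1)).trans (Pr_harris hq i1 i2)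
  have a34 := (mul_le_mul p3 p4 h0 (h0.trans p3)).trans (Pr_harris hq i3 i4)
  have hdd : 0 ≤ δ * δ := mul_nonneg h0 h0
  have a := (mul_le_mul a12 a34 hdd (hdd.trans a12)).trans (Pr_harris hq i12 i34)
  have e : δ ^ 4 = δ * δ * (δ * δ) := by ring
  rw [e]
  exact a

/-- none of the first `k` scales is good -/
def NG (I : ℕ → Finset E) (Qe : ℕ → Finset E → Prop) (k : ℕ) (H : Finset (E ⊕ E)) : Prop :=
  ∀ i < k, ¬ Gd (I i) (Qe i) H

theorem NG_succ (I : ℕ → Finset E) (Qe : ℕ → Finset E → Prop) (k : ℕ) (H : Finset (E ⊕ E)) :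
    NG I Qe (k + 1) H ↔ NG I Qe k H ∧ ¬ Gd (I k) (Qe k) H := by
  constructor
  · intro h
    exact ⟨fun i hi => h i (by omega), h k (by omega)⟩
  · rintro ⟨h1, h2⟩ i hi
    rcases Nat.lt_succ_iff_lt_or_eq.1 hi with h | h
    · exact h1 i h
    · rw [h]
      exact h2

theorem pr_NG {p : E → ℝ} (hp : Ok p) {S : Finset E} {K : ℕ} {I R : ℕ → Finset E}
    {Qe : ℕ → Finset E → Prop} {δ : ℝ} (h0 : 0 ≤ δ)
    (hdis : ∀ i j, i < j → j < K → Disjoint (R i) (R j))
    (hRS : ∀ i < K, R i ⊆ S) (hloc : ∀ i < K, ∀ F, Qe i F ↔ Qe i (F ∩ R i))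
    (hinc : ∀ i < K, ∀ F G, F ⊆ G → Qe i F → Qe i G) (hδ : ∀ i < K, δ ≤ Pr p S (Qe i))
    (k : ℕ) (hk : k ≤ K) : Pr (q2 p) (S.disjSum S) (NG I Qe k) ≤ (1 - δ ^ 4) ^ k := by
  have hq := q2_ok hp
  induction k with
  | zero =>
    rw [pow_zero]
    exact Pr_le_one hq _ _
  | succ k ih =>
    have hkK : k < K := by omega
    have ih' := ih (by omega)
    have e1 : Pr (q2 p) (S.disjSum S) (NG I Qe (k + 1)) =
        Pr (q2 p) (S.disjSum S) (fun H => NG I Qe k H ∧ ¬ Gd (I k) (Qe k) H) :=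
      Pr_congr fun H _ => NG_succ I Qe k H
    set T : Finset (E ⊕ E) := (Finset.range k).biUnion fun i => (R i).disjSum (R i) with hT
    have hTS : T ⊆ S.disjSum S := by
      intro x hx
      rw [hT, Finset.mem_biUnion] at hx
      obtain ⟨i, hi, hx⟩ := hx
      have hi' : i < K := by
        have := Finset.mem_range.1 hi
        omega
      rcases x with x | x
      · simp only [Finset.inl_mem_disjSum] at hx ⊢
        exact hRS i hi' hx
      · simp only [Finset.inr_mem_disjSum] at hx ⊢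
        exact hRS i hi' hx
    have hRS' : (R k).disjSum (R k) ⊆ S.disjSum S := by
      intro x hx
      rcases x with x | x
      · simp only [Finset.inl_mem_disjSum] at hx ⊢
        exact hRS k hkK hx
      · simp only [Finset.inr_mem_disjSum] at hx ⊢
        exact hRS k hkK hx
    have hd : Disjoint T ((R k).disjSum (R k)) := by
      rw [Finset.disjoint_left]
      intro x hx hy
      rw [hT, Finset.mem_biUnion] at hx
      obtain ⟨i, hi, hx⟩ := hx
      have hdi := Finset.disjoint_left.1 (hdis i k (Finset.mem_range.1 hi) hkK)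
      rcases x with x | x
      · simp only [Finset.inl_mem_disjSum] at hx hy
        exact hdi hx hy
      · simp only [Finset.inr_mem_disjSum] at hx hy
        exact hdi hx hy
    have e2 : Pr (q2 p) (S.disjSum S) (fun H => NG I Qe k H ∧ ¬ Gd (I k) (Qe k) H) =
        Pr (q2 p) (S.disjSum S) (NG I Qe k) *
          Pr (q2 p) (S.disjSum S) (fun H => ¬ Gd (I k) (Qe k) H) := by
      refine Pr_indep hTS hRS' hd (fun H _ => ?_) (fun H _ => ?_)
      · unfold NG
        refine forall_congr' fun i => ?_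
        refine forall_congr' fun hi => ?_
        refine not_congr (Gd_congr (hloc i (by omega)) ?_)
        ext x
        simp only [mem_inter]
        constructor
        · rintro ⟨h1, h2⟩
          exact ⟨⟨h1, hT ▸ Finset.mem_biUnion.2 ⟨i, Finset.mem_range.2 hi, h2⟩⟩, h2⟩
        · rintro ⟨h1, h2⟩
          exact ⟨h1.1, h2⟩
      · exact not_congr (Gd_local (hloc k hkK) H)
    have h1 : Pr (q2 p) (S.disjSum S) (fun H => ¬ Gd (I k) (Qe k) H) ≤ 1 - δ ^ 4 := by
      rw [Pr_not]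
      have := pr_Gd (I := I k) hp (hinc k hkK) h0 (hδ k hkK)
      linarith
    have h2 : 0 ≤ Pr (q2 p) (S.disjSum S) (fun H => ¬ Gd (I k) (Qe k) H) := Pr_nonneg hq _ _
    have h3 : 0 ≤ Pr (q2 p) (S.disjSum S) (NG I Qe k) := Pr_nonneg hq _ _
    rw [e1, e2, pow_succ]
    exact mul_le_mul ih' h1 h2 (h3.trans ih')

theorem swap_main {p : E → ℝ} (hp : Ok p) (S : Finset E) (K : ℕ) (I R : ℕ → Finset E)
    (Qe : ℕ → Finset E → Prop) (a11 a12 a21 a22 : Finset E → Prop) (δ : ℝ) (h0 : 0 ≤ δ)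
    (hI : ∀ i j, i < j → j < K → R i ⊆ I j) (hdis : ∀ i j, i < j → j < K → Disjoint (R i) (R j))
    (hRS : ∀ i < K, R i ⊆ S) (hloc : ∀ i < K, ∀ F, Qe i F ↔ Qe i (F ∩ R i))
    (hinc : ∀ i < K, ∀ F G, F ⊆ G → Qe i F → Qe i G) (hδ : ∀ i < K, δ ≤ Pr p S (Qe i))
    (h11 : ∀ F G, F ⊆ G → a11 F → a11 G) (h22 : ∀ F G, F ⊆ G → a22 F → a22 G)
    (key : ∀ i < K, ∀ F F', F ⊆ S → F' ⊆ S → Qe i F → Qe i F' → Qe i (mx (I i) F F') →
      Qe i (mx (I i) F' F) → a11 F → a22 F' → a12 (mx (I i) F F') ∧ a21 (mx (I i) F' F)) :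
    Pr p S a11 * Pr p S a22 ≤
      Pr p S a12 * Pr p S a21 + (1 - δ ^ 4) ^ K * (Pr p S a11 * Pr p S a22) := by
  have hq := q2_ok hp
  set X : Finset (E ⊕ E) → Prop := fun H => a11 H.toLeft ∧ a22 H.toRight with hX
  set Y : Finset (E ⊕ E) → Prop := fun H => a12 H.toLeft ∧ a21 H.toRight with hY
  have pX : Pr (q2 p) (S.disjSum S) X = Pr p S a11 * Pr p S a22 := pr_both p S a11 a22
  have pY : Pr (q2 p) (S.disjSum S) Y = Pr p S a12 * Pr p S a21 := pr_both p S a12 a21
  -- splitting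
  have split : ∀ (Z : Finset (E ⊕ E) → Prop) (k : ℕ),
      Pr (q2 p) (S.disjSum S) (fun H => Z H ∧ ¬ NG I Qe (k + 1) H) =
      Pr (q2 p) (S.disjSum S) (fun H => Z H ∧ ¬ NG I Qe k H) +
      Pr (q2 p) (S.disjSum S) (fun H => Z H ∧ NG I Qe k H ∧ Gd (I k) (Qe k) H) := by
    intro Z k
    unfold Pr
    rw [← Ex_add]
    refine Ex_congr fun H _ => ?_
    rw [ind_congr (and_congr_right' (not_congr (NG_succ I Qe k H)))]
    by_cases hz : Z H <;> by_cases hn : NG I Qe k H <;> by_cases hg : Gd (I k) (Qe k) H <;>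
      simp [ind, hz, hn, hg]
  -- the swap at one scale
  have step : ∀ k < K,
      Pr (q2 p) (S.disjSum S) (fun H => X H ∧ NG I Qe k H ∧ Gd (I k) (Qe k) H) ≤
      Pr (q2 p) (S.disjSum S) (fun H => Y H ∧ NG I Qe k H ∧ Gd (I k) (Qe k) H) := by
    intro k hk
    have e := ex_swap p S (I k) (fun H => ind (Y H ∧ NG I Qe k H ∧ Gd (I k) (Qe k) H))
    unfold Pr
    rw [e]
    refine Ex_mono hq fun H hH => ind_mono ?_
    rintro ⟨hXH, hN, hG⟩
    have hl : H.toLeft ⊆ S := by
      intro x hx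
      rw [Finset.mem_toLeft] at hx
      simpa using hH hx
    have hr : H.toRight ⊆ S := by
      intro x hx
      rw [Finset.mem_toRight] at hx
      simpa using hH hx
    refine ⟨?_, ?_, (Gd_swap_self H).2 hG⟩
    · show a12 _ ∧ a21 _
      rw [toLeft_swap, toRight_swap]
      exact key k hk _ _ hl hr hG.1.1 hG.1.2 hG.2.1 hG.2.2 hXH.1 hXH.2
    · intro i hi
      rw [Gd_swap (hloc i (by omega)) (hI i k hi hk)]
      exact hN i hi
  have ind1 : ∀ k ≤ K, Pr (q2 p) (S.disjSum S) (fun H => X H ∧ ¬ NG I Qe k H) ≤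
      Pr (q2 p) (S.disjSum S) (fun H => Y H ∧ ¬ NG I Qe k H) := by
    intro k
    induction k with
    | zero =>
      intro _
      refine Pr_mono hq fun H _ h => ?_
      exact absurd (fun i hi => absurd hi (Nat.not_lt_zero i)) h.2
    | succ k ih =>
      intro hk
      rw [split, split]
      exact add_le_add (ih (by omega)) (step k (by omega))
  have hK := ind1 K le_rfl
  have hY1 : Pr (q2 p) (S.disjSum S) (fun H => Y H ∧ ¬ NG I Qe K H) ≤
      Pr (q2 p) (S.disjSum S) Y := Pr_mono hq fun H _ h => h.1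
  have hX1 : Pr (q2 p) (S.disjSum S) X =
      Pr (q2 p) (S.disjSum S) (fun H => X H ∧ NG I Qe K H) +
      Pr (q2 p) (S.disjSum S) (fun H => X H ∧ ¬ NG I Qe K H) := by
    unfold Pr
    rw [← Ex_add]
    refine Ex_congr fun H _ => ?_
    by_cases hz : X H <;> by_cases hn : NG I Qe K H <;> simp [ind, hz, hn]
  have hX2 : Pr (q2 p) (S.disjSum S) (fun H => X H ∧ NG I Qe K H) ≤
      Pr (q2 p) (S.disjSum S) X * Pr (q2 p) (S.disjSum S) (NG I Qe K) := by
    refine Pr_harris_decr hq ?_ ?_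
    · intro F G h _ hF
      exact ⟨h11 _ _ (toLeft_mono' h) hF.1, h22 _ _ (toRight_mono' h) hF.2⟩
    · intro F G h _ hF hG
      refine hF fun i hi hg => hG i hi (Gd_mono (hinc i hi) h hg)
  have hN := pr_NG (I := I) hp h0 hdis hRS hloc hinc hδ K le_rfl
  have hXn : 0 ≤ Pr (q2 p) (S.disjSum S) X := Pr_nonneg hq _ _
  have hfin := mul_le_mul_of_nonneg_left hN hXn
  rw [← pX, ← pY]
  linarith

theorem t_SWAP : Pool.Agent.U167.SA.SwapStm := by
  intro p hp S K I R Qe a11 a12 a21 a22 δ h0 hI hdis hRS hloc hinc hδ h11 h22 key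
  exact swap_main hp S K I R Qe a11 a12 a21 a22 δ h0 hI hdis hRS hloc hinc hδ h11 h22 key

end Pool.Agent.U99.SA
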